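import Mathlib

/-!
# Compactible relations: complements of intervals are finite disjoint unions of intervals

`A ⊆ E ^ n` is a relation with base `E`. A set `D ⊆ E` is an interval (mod `A`) if every local
automorphism of `A|D`, extended by the identity of `E \ D`, is a local automorphism of `A`; `A` is
compactible if the complement of every interval is a finite union of intervals.

We show that for every compactible relation the complement of every interval is the union of
finitely many pairwise disjoint intervals.

Proof. Intervals are closed under intersections, so (for compactible `A`) the finite unions of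
intervals form a Boolean algebra. The *age* of a set `S` is the (finite) set of isomorphism types of
the `n`-tuples in `S`. Key lemma: if `K`, `L` are intervals and every `n`-tuple of `K ∩ L` is
isomorphic to an `n`-tuple of `K \ L`, then `L \ K` is an interval. By symmetry, if `K \ L` is not an
interval, then the age of `K ∩ L` is not contained in the age of `L \ K`. Induction on the age: let `U`
be the union of an interval `K` and of pairwise disjoint intervals `L`. If some `K \ L`, with `L`
meeting `K`, is an interval, replace `K` by `K \ L` (it meets fewer of the `L`). Otherwise all the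
`L \ K` (with `L` meeting `K`) are finite unions of intervals with a smaller age, hence finite disjoint
unions of intervals by induction, and `U` is the disjoint union of `K` and the `L \ K`.
-/

set_option autoImplicit false

namespace Pool.Agent.Results.MP_a8ef43_co.DisjointIntervals

universe u

variable {E : Type u} {n : ℕ}

/-- `f` restricts to a bijection `X → Y` which is an isomorphism from `A|X` onto `A|Y`: a local
automorphism of `A` with domain `X` and range `Y`. -/
def LocalAut (A : Set (Fin n → E)) (X Y : Set E) (f : E → E) : Prop :=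
  Set.BijOn f X Y ∧ ∀ x : Fin n → E, (∀ i, x i ∈ X) → (x ∈ A ↔ (fun i => f (x i)) ∈ A)

open Classical in
/-- `D` is an interval (mod `A`): for every local automorphism `f : X → Y` of `A|D`, that is, with
`X, Y ⊆ D`, the map `f ∪ id` with domain `X ∪ (E \ D)` is a local automorphism of `A`. -/
def IsInterval (A : Set (Fin n → E)) (D : Set E) : Prop :=
  ∀ (X Y : Set E) (f : E → E), X ⊆ D → Y ⊆ D → LocalAut A X Y f →
    LocalAut A (X ∪ Dᶜ) (Y ∪ Dᶜ) (fun e => if e ∈ D then f e else e)

/-- `A` is compactible: the complement of every interval is a finite union of intervals. -/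
def Compactible (A : Set (Fin n → E)) : Prop :=
  ∀ D, IsInterval A D → ∃ S : Set (Set E), S.Finite ∧ (∀ I ∈ S, IsInterval A I) ∧ ⋃₀ S = Dᶜ

/-- intervals in terms of tuples -/
def TI (A : Set (Fin n → E)) (D : Set E) : Prop :=
  ∀ x y : Fin n → E, (∀ i, (x i ∈ D ∧ y i ∈ D) ∨ (x i ∉ D ∧ x i = y i)) →
    (∀ i j, x i ∈ D → x j ∈ D → (x i = x j ↔ y i = y j)) →
    (∀ σ : Fin n → Fin n, (∀ k, x (σ k) ∈ D) → (x ∘ σ ∈ A ↔ y ∘ σ ∈ A)) → (x ∈ A ↔ y ∈ A)

theorem ti_of_interval {A : Set (Fin n → E)} {D : Set E} (h : IsInterval A D) : TI A D := by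
  classical
  intro x y hxy heq hiso
  have hD : ∀ i, x i ∈ D → y i ∈ D := by
    intro i hi
    rcases hxy i with h1 | h1
    · exact h1.2
    · exact absurd hi h1.1
  set X : Set E := {e | ∃ i, x i = e ∧ x i ∈ D}
  set Y : Set E := {e | ∃ i, y i = e ∧ x i ∈ D}
  set f : E → E := fun e => if hh : ∃ i, x i = e ∧ x i ∈ D then y hh.choose else e with hf
  have hfx : ∀ i, x i ∈ D → f (x i) = y i := by
    intro i hi
    have hh : ∃ j, x j = x i ∧ x j ∈ D := ⟨i, rfl, hi⟩
    rw [hf]
    simp only [dif_pos hh]
    exact (heq _ _ hh.choose_spec.2 hi).1 hh.choose_spec.1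
  have hloc : LocalAut A X Y f := by
    refine ⟨⟨?_, ?_, ?_⟩, ?_⟩
    · rintro e ⟨i, rfl, hi⟩
      exact ⟨i, (hfx i hi).symm, hi⟩
    · rintro e ⟨i, rfl, hi⟩ e' ⟨j, rfl, hj⟩ hee
      rw [hfx i hi, hfx j hj] at hee
      exact (heq i j hi hj).2 hee
    · rintro e ⟨i, rfl, hi⟩
      exact ⟨x i, ⟨i, rfl, hi⟩, hfx i hi⟩
    · intro w hw
      choose σ hσ1 hσ2 using hw
      have h1 : w = x ∘ σ := by
        funext i
        exact (hσ1 i).symm
      have h2 : (fun i => f (w i)) = y ∘ σ := by
        funext i
        rw [h1]
        exact hfx _ (hσ2 i)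
      rw [h2, h1]
      exact hiso σ hσ2
  have h1 := h X Y f (by rintro e ⟨i, rfl, hi⟩; exact hi) (by rintro e ⟨i, rfl, hi⟩; exact hD i hi)
    hloc
  have h2 := h1.2 x (by
    intro i
    by_cases hi : x i ∈ D
    · exact Or.inl ⟨i, rfl, hi⟩
    · exact Or.inr hi)
  have h3 : (fun i => if x i ∈ D then f (x i) else x i) = y := by
    funext i
    by_cases hi : x i ∈ D
    · rw [if_pos hi, hfx i hi]
    · rw [if_neg hi]
      rcases hxy i with h4 | h4
      · exact absurd h4.1 hi
      · exact h4.2
  rw [h3] at h2
  exact h2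

theorem interval_of_ti {A : Set (Fin n → E)} {D : Set E} (h : TI A D) : IsInterval A D := by
  classical
  intro X Y f hX hY hf
  refine ⟨⟨?_, ?_, ?_⟩, ?_⟩
  · intro e he
    by_cases hD : e ∈ D
    · have heX : e ∈ X := he.resolve_right (fun h1 => h1 hD)
      simp only [if_pos hD]
      exact Or.inl (hf.1.1 heX)
    · simp only [if_neg hD]
      exact Or.inr hD
  · intro e he e' he' hee
    by_cases hD : e ∈ D
    · have heX : e ∈ X := he.resolve_right (fun h1 => h1 hD)
      by_cases hD' : e' ∈ D
      · have heX' : e' ∈ X := he'.resolve_right (fun h1 => h1 hD')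
        simp only [if_pos hD, if_pos hD'] at hee
        exact hf.1.2.1 heX heX' hee
      · simp only [if_pos hD, if_neg hD'] at hee
        exact absurd (hee ▸ hY (hf.1.1 heX)) hD'
    · by_cases hD' : e' ∈ D
      · have heX' : e' ∈ X := he'.resolve_right (fun h1 => h1 hD')
        simp only [if_neg hD, if_pos hD'] at hee
        exact absurd (hee ▸ hY (hf.1.1 heX')) hD
      · simp only [if_neg hD, if_neg hD'] at hee
        exact hee
  · intro e he
    rcases he with he | he
    · obtain ⟨a, ha, rfl⟩ := hf.1.2.2 he
      exact ⟨a, Or.inl ha, by simp only [if_pos (hX ha)]⟩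
    · exact ⟨e, Or.inr he, by simp only [if_neg he]⟩
  · intro w hw
    have hwX : ∀ i, w i ∈ D → w i ∈ X := fun i hi => (hw i).resolve_right (fun h1 => h1 hi)
    apply h w (fun i => if w i ∈ D then f (w i) else w i)
    · intro i
      by_cases hi : w i ∈ D
      · left
        simp only [if_pos hi]
        exact ⟨hi, hY (hf.1.1 (hwX i hi))⟩
      · right
        simp only [if_neg hi]
        exact ⟨hi, trivial⟩
    · intro i j hi hj
      simp only [if_pos hi, if_pos hj]
      exact ⟨fun h1 => by rw [h1], fun h1 => hf.1.2.1 (hwX i hi) (hwX j hj) h1⟩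
    · intro σ hσ
      have h1 := hf.2 (w ∘ σ) (fun i => hwX _ (hσ i))
      rw [h1]
      have h2 : (fun i => f ((w ∘ σ) i)) = (fun i => if w i ∈ D then f (w i) else w i) ∘ σ := by
        funext i
        simp only [Function.comp, if_pos (hσ i)]
      rw [h2]

theorem interval_iff (A : Set (Fin n → E)) (D : Set E) : IsInterval A D ↔ TI A D :=
  ⟨ti_of_interval, interval_of_ti⟩

/-- the intersection of two intervals is an interval -/
theorem inter {A : Set (Fin n → E)} {I J : Set E} (hI : IsInterval A I) (hJ : IsInterval A J) :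
    IsInterval A (I ∩ J) := by
  rw [interval_iff] at *
  intro x y hxy heq hiso
  have key : ∀ σ : Fin n → Fin n, (∀ k, x (σ k) ∈ J) → (x ∘ σ ∈ A ↔ y ∘ σ ∈ A) := by
    intro σ hσ
    apply hI
    · intro i
      rcases hxy (σ i) with h | h
      · exact Or.inl ⟨h.1.1, h.2.1⟩
      · refine Or.inr ⟨fun h1 => h.1 ⟨h1, hσ i⟩, h.2⟩
    · intro i j hi hj
      exact heq _ _ ⟨hi, hσ i⟩ ⟨hj, hσ j⟩
    · intro τ hτ
      exact hiso (σ ∘ τ) (fun k => ⟨hτ k, hσ _⟩)
  apply hJ
  · intro i
    by_cases hi : x i ∈ J
    · left
      rcases hxy i with h | h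
      · exact ⟨hi, h.2.2⟩
      · exact ⟨hi, h.2 ▸ hi⟩
    · right
      rcases hxy i with h | h
      · exact absurd h.1.2 hi
      · exact ⟨hi, h.2⟩
  · intro i j hi hj
    rcases hxy i with h | h
    · rcases hxy j with h' | h'
      · exact heq i j h.1 h'.1
      · constructor
        · intro h1
          exact absurd (h1 ▸ h.1) h'.1
        · intro h1
          exact absurd (by rw [h'.2, ← h1]; exact h.2) h'.1
    · rcases hxy j with h' | h'
      · constructor
        · intro h1
          exact absurd (h1 ▸ h'.1) h.1
        · intro h1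
          exact absurd (by rw [h.2, h1]; exact h'.2) h.1
      · rw [h.2, h'.2]
  · exact key

/-- the isomorphism type of a tuple -/
def code (A : Set (Fin n → E)) (t : Fin n → E) :
    (Fin n → Fin n → Prop) × ((Fin n → Fin n) → Prop) :=
  (fun i j => t i = t j, fun σ => t ∘ σ ∈ A)

/-- the isomorphism types of the `n`-tuples of elements of `S` -/
def age (A : Set (Fin n → E)) (S : Set E) :
    Set ((Fin n → Fin n → Prop) × ((Fin n → Fin n) → Prop)) :=
  code A '' {t | ∀ i, t i ∈ S}

theorem age_mono (A : Set (Fin n → E)) {S T : Set E} (h : S ⊆ T) : age A S ⊆ age A T :=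
  Set.image_mono fun _ ht i => h (ht i)

/-- Key lemma: if every tuple of `K ∩ L` is isomorphic to a tuple of `K \ L`, then `L \ K` is an
interval. -/
theorem diff_interval {A : Set (Fin n → E)} {K L : Set E} (hK : IsInterval A K)
    (hL : IsInterval A L) (h : age A (K ∩ L) ⊆ age A (K \ L)) : IsInterval A (L \ K) := by
  classical
  rw [interval_iff] at *
  -- tuples inside `L`
  have key : ∀ x y : Fin n → E, (∀ i, x i ∈ L) →
      (∀ i, (x i ∈ L \ K ∧ y i ∈ L \ K) ∨ (x i ∉ L \ K ∧ x i = y i)) →
      (∀ i j, x i ∈ L \ K → x j ∈ L \ K → (x i = x j ↔ y i = y j)) →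
      (∀ σ : Fin n → Fin n, (∀ k, x (σ k) ∈ L \ K) → (x ∘ σ ∈ A ↔ y ∘ σ ∈ A)) →
      (x ∈ A ↔ y ∈ A) := by
    intro x y hxL hxy heq hiso
    by_cases hT : ∃ i, x i ∈ K
    · obtain ⟨i₀, hi₀⟩ := hT
      obtain ⟨t', ht', hc⟩ := h ⟨fun i => if x i ∈ K then x i else x i₀, by
        intro i
        by_cases hi : x i ∈ K
        · simp only [if_pos hi]
          exact ⟨hi, hxL i⟩
        · simp only [if_neg hi]
          exact ⟨hi₀, hxL i₀⟩, rfl⟩
      have hc1 : ∀ i j, x i ∈ K → x j ∈ K → (x i = x j ↔ t' i = t' j) := by
        intro i j hi hj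
        have h1 := congrFun (congrFun (congrArg Prod.fst hc) i) j
        simp only [code, if_pos hi, if_pos hj] at h1
        exact (iff_of_eq h1).symm
      have hc2 : ∀ σ : Fin n → Fin n, (∀ k, x (σ k) ∈ K) → (x ∘ σ ∈ A ↔ t' ∘ σ ∈ A) := by
        intro σ hσ
        have h1 := congrFun (congrArg Prod.snd hc) σ
        have h2 : (fun i => if x i ∈ K then x i else x i₀) ∘ σ = x ∘ σ := by
          funext k
          simp only [Function.comp, if_pos (hσ k)]
        simp only [code] at h1
        rw [h2] at h1
        exact (iff_of_eq h1).symm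
      have hnot : ∀ i, x i ∈ K → y i = x i := by
        intro i hi
        rcases hxy i with h1 | h1
        · exact absurd hi h1.1.2
        · exact h1.2.symm
      have hyes : ∀ i, x i ∉ K → x i ∈ L \ K ∧ y i ∈ L \ K := by
        intro i hi
        rcases hxy i with h1 | h1
        · exact h1
        · exact absurd ⟨hxL i, hi⟩ h1.1
      -- replace the part in `K`
      have hx : x ∈ A ↔ (fun i => if x i ∈ K then t' i else x i) ∈ A := by
        apply hK
        · intro i
          by_cases hi : x i ∈ K
          · left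
            simp only [if_pos hi]
            exact ⟨hi, (ht' i).1⟩
          · right
            simp only [if_neg hi]
            exact ⟨hi, trivial⟩
        · intro i j hi hj
          simp only [if_pos hi, if_pos hj]
          exact hc1 i j hi hj
        · intro σ hσ
          rw [hc2 σ hσ]
          have h2 : (fun i => if x i ∈ K then t' i else x i) ∘ σ = t' ∘ σ := by
            funext k
            simp only [Function.comp, if_pos (hσ k)]
          rw [h2]
      have hy : y ∈ A ↔ (fun i => if x i ∈ K then t' i else y i) ∈ A := by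
        have hyK : ∀ i, y i ∈ K → x i ∈ K := by
          intro i hi
          by_contra hxi
          exact (hyes i hxi).2.2 hi
        apply hK
        · intro i
          by_cases hi : x i ∈ K
          · left
            simp only [if_pos hi]
            exact ⟨(hnot i hi).symm ▸ hi, (ht' i).1⟩
          · right
            simp only [if_neg hi]
            exact ⟨fun h1 => hi (hyK i h1), trivial⟩
        · intro i j hi hj
          simp only [if_pos (hyK i hi), if_pos (hyK j hj)]
          rw [hnot i (hyK i hi), hnot j (hyK j hj)]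
          exact hc1 i j (hyK i hi) (hyK j hj)
        · intro σ hσ
          have h1 : y ∘ σ = x ∘ σ := by
            funext k
            exact hnot _ (hyK _ (hσ k))
          rw [h1, hc2 σ (fun k => hyK _ (hσ k))]
          have h2 : (fun i => if x i ∈ K then t' i else y i) ∘ σ = t' ∘ σ := by
            funext k
            simp only [Function.comp, if_pos (hyK _ (hσ k))]
          rw [h2]
      rw [hx, hy]
      apply hL
      · intro i
        by_cases hi : x i ∈ K
        · right
          simp only [if_pos hi]
          exact ⟨(ht' i).2, trivial⟩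
        · left
          simp only [if_neg hi]
          exact ⟨(hyes i hi).1.1, (hyes i hi).2.1⟩
      · intro i j hi hj
        have hi' : x i ∉ K := by
          intro h1
          simp only [if_pos h1] at hi
          exact (ht' i).2 hi
        have hj' : x j ∉ K := by
          intro h1
          simp only [if_pos h1] at hj
          exact (ht' j).2 hj
        simp only [if_neg hi', if_neg hj']
        exact heq i j (hyes i hi').1 (hyes j hj').1
      · intro σ hσ
        have hσ' : ∀ k, x (σ k) ∉ K := by
          intro k h1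
          have h2 := hσ k
          simp only [if_pos h1] at h2
          exact (ht' _).2 h2
        have h1 : (fun i => if x i ∈ K then t' i else x i) ∘ σ = x ∘ σ := by
          funext k
          simp only [Function.comp, if_neg (hσ' k)]
        have h2 : (fun i => if x i ∈ K then t' i else y i) ∘ σ = y ∘ σ := by
          funext k
          simp only [Function.comp, if_neg (hσ' k)]
        rw [h1, h2]
        exact hiso σ (fun k => (hyes _ (hσ' k)).1)
    · push Not at hT
      exact hiso id (fun k => ⟨hxL k, hT k⟩)
  intro x y hxy heq hiso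
  apply hL
  · intro i
    by_cases hi : x i ∈ L
    · left
      rcases hxy i with h1 | h1
      · exact ⟨hi, h1.2.1⟩
      · exact ⟨hi, h1.2 ▸ hi⟩
    · right
      rcases hxy i with h1 | h1
      · exact absurd h1.1.1 hi
      · exact ⟨hi, h1.2⟩
  · intro i j hi hj
    rcases hxy i with h1 | h1
    · rcases hxy j with h2 | h2
      · exact heq i j h1.1 h2.1
      · constructor
        · intro h3
          exact absurd (h3 ▸ h1.1) h2.1
        · intro h3
          exact absurd (by rw [h2.2, ← h3]; exact h1.2) h2.1
    · rcases hxy j with h2 | h2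
      · constructor
        · intro h3
          exact absurd (h3 ▸ h2.1) h1.1
        · intro h3
          exact absurd (by rw [h1.2, h3]; exact h2.2) h1.1
      · rw [h1.2, h2.2]
  · intro σ hσ
    apply key (x ∘ σ) (y ∘ σ) hσ
    · intro i
      exact hxy (σ i)
    · intro i j hi hj
      exact heq _ _ hi hj
    · intro τ hτ
      exact hiso (σ ∘ τ) hτ

/-- a finite disjoint union of intervals -/
def Good (A : Set (Fin n → E)) (U : Set E) : Prop :=
  ∃ S : Finset (Set E), (∀ I ∈ S, IsInterval A I) ∧ (S : Set (Set E)).PairwiseDisjoint id ∧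
    ⋃₀ (S : Set (Set E)) = U

/-- a finite union of intervals -/
def FU (A : Set (Fin n → E)) (U : Set E) : Prop :=
  ∃ S : Finset (Set E), (∀ I ∈ S, IsInterval A I) ∧ ⋃₀ (S : Set (Set E)) = U

theorem good_empty (A : Set (Fin n → E)) : Good A ∅ :=
  ⟨∅, by simp, by simp, by simp⟩

theorem good_interval {A : Set (Fin n → E)} {I : Set E} (h : IsInterval A I) : Good A I :=
  ⟨{I}, by simpa using h, by simp, by simp⟩

theorem good_union {A : Set (Fin n → E)} {U V : Set E} (hU : Good A U) (hV : Good A V)
    (hd : Disjoint U V) : Good A (U ∪ V) := by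
  classical
  obtain ⟨S, hS, hSd, rfl⟩ := hU
  obtain ⟨T, hT, hTd, rfl⟩ := hV
  refine ⟨S ∪ T, ?_, ?_, ?_⟩
  · intro I hI
    rcases Finset.mem_union.1 hI with h | h
    · exact hS I h
    · exact hT I h
  · rw [Finset.coe_union]
    apply Set.PairwiseDisjoint.union hSd hTd
    intro I hI J hJ _
    exact hd.mono (Set.subset_sUnion_of_mem hI) (Set.subset_sUnion_of_mem hJ)
  · rw [Finset.coe_union, Set.sUnion_union]

theorem fu_diff {A : Set (Fin n → E)} (hA : Compactible A) {K L : Set E} (hK : IsInterval A K)
    (hL : IsInterval A L) : FU A (K \ L) := by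
  classical
  obtain ⟨S, hSf, hS, hSu⟩ := hA L hL
  refine ⟨hSf.toFinset.image (fun I => K ∩ I), ?_, ?_⟩
  · intro I hI
    obtain ⟨J, hJ, rfl⟩ := Finset.mem_image.1 hI
    exact inter hK (hS J (hSf.mem_toFinset.1 hJ))
  · have h1 : K \ L = K ∩ ⋃₀ S := by rw [hSu, Set.sdiff_eq]
    rw [h1]
    ext e
    simp only [Finset.coe_image, Set.sUnion_image, Set.mem_iUnion, Finset.mem_coe,
      Set.Finite.mem_toFinset, Set.mem_inter_iff, Set.mem_sUnion, exists_prop]
    constructor
    · rintro ⟨I, hI, he, heI⟩
      exact ⟨he, I, hI, heI⟩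
    · rintro ⟨he, I, hI, heI⟩
      exact ⟨I, hI, he, heI⟩

open Classical in
/-- one interval and disjoint intervals -/
theorem claim {A : Set (Fin n → E)} (hA : Compactible A)
    (𝒜 : Set ((Fin n → Fin n → Prop) × ((Fin n → Fin n) → Prop)))
    (IH : ∀ U, FU A U → age A U ⊂ 𝒜 → Good A U) (k : ℕ) :
    ∀ (K : Set E) (𝓛 : Finset (Set E)), IsInterval A K → (∀ L ∈ 𝓛, IsInterval A L) →
      (𝓛 : Set (Set E)).PairwiseDisjoint id →
      (𝓛.filter (fun L => ¬ Disjoint K L)).card = k → age A (K ∪ ⋃₀ (𝓛 : Set (Set E))) ⊆ 𝒜 →
      Good A (K ∪ ⋃₀ (𝓛 : Set (Set E))) := by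
  induction k using Nat.strong_induction_on with
  | _ k ih =>
    intro K 𝓛 hK h𝓛 hd hk hage
    by_cases hc : ∃ L ∈ 𝓛, ¬ Disjoint K L ∧ IsInterval A (K \ L)
    · obtain ⟨L, hL, hKL, hI⟩ := hc
      have hU : K \ L ∪ ⋃₀ (𝓛 : Set (Set E)) = K ∪ ⋃₀ (𝓛 : Set (Set E)) := by
        apply Set.Subset.antisymm
        · exact Set.union_subset_union_left _ Set.sdiff_subset
        · rintro e (he | he)
          · by_cases heL : e ∈ L
            · exact Or.inr ⟨L, hL, heL⟩
            · exact Or.inl ⟨he, heL⟩
          · exact Or.inr he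
      rw [← hU]
      refine ih _ ?_ (K \ L) 𝓛 hI h𝓛 hd rfl (hU ▸ hage)
      rw [← hk]
      apply Finset.card_lt_card
      rw [Finset.ssubset_iff_of_subset]
      · refine ⟨L, Finset.mem_filter.2 ⟨hL, hKL⟩, ?_⟩
        intro h1
        exact (Finset.mem_filter.1 h1).2 (Set.disjoint_left.2 fun e he1 he2 => he1.2 he2)
      · intro M hM
        obtain ⟨h1, h2⟩ := Finset.mem_filter.1 hM
        exact Finset.mem_filter.2 ⟨h1, fun h3 => h2 (h3.mono_left Set.sdiff_subset)⟩
    · push Not at hc
      -- every `L \ K` is good
      have hgood : ∀ L ∈ 𝓛, Good A (L \ K) := by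
        intro L hL
        by_cases hKL : Disjoint K L
        · rw [hKL.symm.sdiff_eq_left]
          exact good_interval (h𝓛 L hL)
        · have hnot := hc L hL hKL
          apply IH _ (fu_diff hA (h𝓛 L hL) hK)
          have h1 : ¬ age A (L ∩ K) ⊆ age A (L \ K) :=
            fun h2 => hnot (diff_interval (h𝓛 L hL) hK h2)
          have hsub : age A (L \ K) ⊆ 𝒜 := by
            refine (age_mono A ?_).trans hage
            exact Set.sdiff_subset.trans
              ((Set.subset_sUnion_of_mem (Finset.mem_coe.2 hL)).trans Set.subset_union_right)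
          refine ⟨hsub, fun h2 => h1 ?_⟩
          refine ((age_mono A ?_).trans hage).trans h2
          exact Set.inter_subset_left.trans
            ((Set.subset_sUnion_of_mem (Finset.mem_coe.2 hL)).trans Set.subset_union_right)
      have hsum : ∀ 𝓜 : Finset (Set E), 𝓜 ⊆ 𝓛 → Good A (⋃₀ (𝓜 : Set (Set E)) \ K) := by
        intro 𝓜
        induction 𝓜 using Finset.induction_on with
        | empty =>
          intro _
          simpa using good_empty A
        | insert L 𝓜 hLM ih2 =>
          intro hsub
          have h1 := ih2 ((Finset.subset_insert _ _).trans hsub)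
          have h2 := hgood L (hsub (Finset.mem_insert_self _ _))
          have h3 : ⋃₀ ((insert L 𝓜 : Finset (Set E)) : Set (Set E)) \ K =
              (L \ K) ∪ (⋃₀ (𝓜 : Set (Set E)) \ K) := by
            rw [Finset.coe_insert, Set.sUnion_insert, Set.union_sdiff_distrib]
          rw [h3]
          apply good_union h2 h1
          rw [Set.disjoint_left]
          rintro e ⟨heL, _⟩ ⟨⟨M, hM, heM⟩, _⟩
          have hne : L ≠ M := by
            rintro rfl
            exact hLM (Finset.mem_coe.1 hM)
          have := hd (Finset.mem_coe.2 (hsub (Finset.mem_insert_self _ _)))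
            (Finset.mem_coe.2 (hsub (Finset.mem_insert_of_mem (Finset.mem_coe.1 hM)))) hne
          exact Set.disjoint_left.1 this heL heM
      have h4 := good_union (good_interval hK) (hsum 𝓛 subset_rfl) Set.disjoint_sdiff_right
      rwa [Set.union_sdiff_self] at h4

/-- every finite union of intervals is a finite disjoint union of intervals -/
theorem good_of_fu {A : Set (Fin n → E)} (hA : Compactible A) (N : ℕ) :
    ∀ 𝒜 : Set ((Fin n → Fin n → Prop) × ((Fin n → Fin n) → Prop)), 𝒜.ncard = N →
      ∀ U, FU A U → age A U ⊆ 𝒜 → Good A U := by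
  classical
  induction N using Nat.strong_induction_on with
  | _ N ih =>
    intro 𝒜 hN U hU hage
    have IH : ∀ V, FU A V → age A V ⊂ 𝒜 → Good A V := by
      intro V hV h1
      exact ih _ (hN ▸ Set.ncard_lt_ncard h1 (Set.toFinite _)) (age A V) rfl V hV subset_rfl
    obtain ⟨S, hS, rfl⟩ := hU
    have hmain : ∀ 𝓜 : Finset (Set E), 𝓜 ⊆ S → Good A (⋃₀ (𝓜 : Set (Set E))) := by
      intro 𝓜
      induction 𝓜 using Finset.induction_on with
      | empty =>
        intro _
        simpa using good_empty A
      | insert K 𝓜 hKM ih2 =>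
        intro hsub
        obtain ⟨𝓛, h𝓛, hd, hu⟩ := ih2 ((Finset.subset_insert _ _).trans hsub)
        rw [Finset.coe_insert, Set.sUnion_insert, ← hu]
        refine claim hA 𝒜 IH _ K 𝓛 (hS K (hsub (Finset.mem_insert_self _ _))) h𝓛 hd rfl ?_
        rw [hu, ← Set.sUnion_insert, ← Finset.coe_insert]
        exact (age_mono A (Set.sUnion_mono (by exact_mod_cast hsub))).trans hage
    exact hmain S subset_rfl

/-- **The complement of an interval of a compactible relation is a finite union of pairwise disjoint
intervals.** For every relation `A ⊆ E ^ n` which is compactible and every interval `D` (mod `A`) there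
are finitely many pairwise disjoint intervals (mod `A`) with union `E \ D`. -/
theorem result {E : Type u} {n : ℕ} (A : Set (Fin n → E)) (hA : Compactible A) (D : Set E)
    (hD : IsInterval A D) :
    ∃ S : Set (Set E), S.Finite ∧ (∀ I ∈ S, IsInterval A I) ∧ S.PairwiseDisjoint id ∧
      ⋃₀ S = Dᶜ := by
  classical
  obtain ⟨S, hSf, hS, hSu⟩ := hA D hD
  obtain ⟨T, hT, hTd, hTu⟩ := good_of_fu hA _ _ rfl Dᶜ
    ⟨hSf.toFinset, fun I hI => hS I (hSf.mem_toFinset.1 hI), by simpa using hSu⟩ subset_rfl
  exact ⟨T, T.finite_toSet, fun I hI => hT I (Finset.mem_coe.1 hI), hTd, hTu⟩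

end Pool.Agent.Results.MP_a8ef43_co.DisjointIntervals
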